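import Pool.Agent.Q258.MT.AsmAll

set_option autoImplicit false

/-!
The monotone triangle polynomial at a row with a reversed and duplicated block.
-/

namespace Pool.Agent.Results.MP_b8c61a_co.ReverseDuplicate

open Pool.Agent.Q258.MT

/-- The number of alternating sign matrices of size `n`. -/
noncomputable def asmNumber (n : ℕ) : ℕ :=
  Nat.card {a : Fin n → Fin n → ℤ // IsASM a}

/-- The sequence `σ_{n+1,k,i}` of length `n + 1 + k` (positions counted from `0`):
`1, ..., i-1, i+k-1, i+k-1, ..., i, i, i+k, ..., n+1`. -/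
def sigma (n k i : ℕ) : Fin (n + k + 1) → ℤ := fun q =>
  if (q : ℕ) + 1 < i then (q : ℕ) + 1
  else if (q : ℕ) + 1 < i + 2 * k then (i : ℤ) + k - 1 - ((((q : ℕ) + 1 - i) / 2 : ℕ) : ℤ)
  else (q : ℕ) - (k : ℤ) + 1

theorem ofFn_sigma (k i m : ℕ) : List.ofFn (sigma (i + k + m) (k + 1) (i + 1)) =
    up 1 i ++ dbl (1 + i) (k + 1) ++ up (1 + i + (k + 1 : ℕ)) m := by
  apply ofFn_eq_of_getElem
  · intro q hq
    simp only [sigma]
    split_ifs with h1 h2
    · rw [List.getElem_append_left (by rw [List.length_append, up_length, dbl_length]; omega),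
        List.getElem_append_left (by rw [up_length]; omega), up_getElem]
      ring
    · rw [List.getElem_append_left (by rw [List.length_append, up_length, dbl_length]; omega),
        List.getElem_append_right (by rw [up_length]; omega), dbl_getElem, up_length]
      have : (q + 1 - (i + 1)) / 2 = (q - i) / 2 := by omega
      rw [this]
      push_cast; ring
    · rw [List.getElem_append_right (by rw [List.length_append, up_length, dbl_length]; omega), up_getElem,
        List.length_append, up_length, dbl_length, Nat.cast_sub (by omega)]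
      push_cast; ring
  · simp only [List.length_append, up_length, dbl_length]
    ring

/-- **The value at a reversed and duplicated block.** For every `n` there is exactly one monotone
triangle polynomial in `n + 1` variables. For all `n ≥ 0`, `1 ≤ k ≤ n + 1` and `1 ≤ i ≤ (n + 1) - k + 1`
the value of the monotone triangle polynomial in `n + 1 + k` variables at `σ_{n+1,k,i}` is
`A_{n+1}`, which is the number of monotone triangles with bottom row `1, ..., n + 1` and the number of
alternating sign matrices of size `n + 1`. -/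
theorem result :
    (∀ n : ℕ, ∃! p : MvPolynomial (Fin (n + 1)) ℚ, IsMTPoly n p) ∧
    (∀ n : ℕ, mtCount n (fun q => (q : ℕ) + 1) = asmNumber (n + 1)) ∧
    ∀ n k i : ℕ, 1 ≤ k → 1 ≤ i → i + k ≤ n + 2 →
      ∀ p : MvPolynomial (Fin (n + k + 1)) ℚ, IsMTPoly (n + k) p →
        MvPolynomial.eval (fun q => (sigma n k i q : ℚ)) p = mtCount n (fun q => (q : ℕ) + 1) := by
  have hmono : ∀ n : ℕ, StrictMono (fun q : Fin (n + 1) => ((q : ℕ) : ℤ) + 1) := by
    intro n a b hab
    have : (a : ℕ) < (b : ℕ) := hab
    show ((a : ℕ) : ℤ) + 1 < ((b : ℕ) : ℤ) + 1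
    omega
  have hcount : ∀ n : ℕ, (mtCount n (fun q => (q : ℕ) + 1) : ℚ) = al (n + 1) (up 1 (n + 1)) := by
    intro n
    rw [← al_eq_count n _ (hmono n), ofFn_up' (n + 1) 1 _ (fun i => by ring)]
  refine ⟨existsUnique_mtPoly, fun n => ?_, fun n k i hk hi hik p hp => ?_⟩
  · have := hcount n
    rw [← asm_total] at this
    exact_mod_cast this
  · obtain ⟨k, rfl⟩ : ∃ k', k = k' + 1 := ⟨k - 1, by omega⟩
    obtain ⟨i, rfl⟩ : ∃ i', i = i' + 1 := ⟨i - 1, by omega⟩
    obtain ⟨m, rfl⟩ : ∃ m, n = i + k + m := ⟨n - i - k, by omega⟩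
    rw [hp.eval_eq, ofFn_sigma, hcount]
    have h := al_rev (k + 1) i m
    have e1 : i + (k + 1) + m + (k + 1) = i + k + m + (k + 1) + 1 := by ring
    have e2 : i + (k + 1) + m = i + k + m + 1 := by ring
    rw [e1, e2] at h
    exact h

end Pool.Agent.Results.MP_b8c61a_co.ReverseDuplicate
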